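import Pool.Agent.Lib.MP_144d21_co.X4.Iface

/-!
# MP_144d21_co, X4, module CUTE (helper30): a separation of order 2 at an edge.
-/

set_option autoImplicit false

namespace Pool.Agent.Xu.X4.H30

open Finset Pool.Agent.Xu Pool.Agent.Xu.X4

/-- adding an edge which is there -/
theorem add_eq {V : Type} {G : SimpleGraph V} {x y : V} (h : G.Adj x y) : add G x y = G := by
  ext a b
  constructor
  · rintro (h1 | ⟨_, ⟨rfl, rfl⟩ | ⟨rfl, rfl⟩⟩)
    · exact h1
    · exact h
    · exact h.symm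
  · exact fun h1 => Or.inl h1

/-- module CUTE -/
theorem cute (hBC : BetcutS) (hCC : CutconnS) (hBP : BposS) : CuteS := by
  intro V _ _ G S S1 S2 x y h2 hxy hU hI hS h1 h1'
  have hne : x ≠ y := hxy.ne
  have hn1 : ¬ S1 ⊆ S2 := fun h => h1' (by rw [← hU]; exact (union_eq_right.2 h).symm)
  have hn2 : ¬ S2 ⊆ S1 := fun h => h1 (by rw [← hU]; exact (union_eq_left.2 h).symm)
  have hI' : S2 ∩ S1 = {x, y} := by rw [inter_comm]; exact hI
  have hS' : Sep G S2 S1 := fun a ha ha' b hb hb' hab => hS b hb hb' a ha ha' hab.symm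
  have h2U : TwoConn G (S1 ∪ S2) := by rw [hU]; exact h2
  have h2U' : TwoConn G (S2 ∪ S1) := by rw [union_comm, hU]; exact h2
  have c1 := hCC V G S1 S2 x y h2U hI hne hS
  have c2 := hCC V G S2 S1 x y h2U' hI' hne hS'
  have hb := hBC V G S1 S2 x y h2U hI hne hS hn1 hn2
  rw [add_eq hxy] at c1 c2 hb
  rw [hU] at hb
  have b1 : 0 < bet G S1 := hBP V _ S1 c1
  have b2 : 0 < bet G S2 := hBP V _ S2 c2
  have l1 : S1.card < S.card := by
    apply card_lt_card
    rw [ssubset_iff_subset_ne]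
    exact ⟨by rw [← hU]; exact subset_union_left, h1⟩
  have l2 : S2.card < S.card := by
    apply card_lt_card
    rw [ssubset_iff_subset_ne]
    exact ⟨by rw [← hU]; exact subset_union_right, h1'⟩
  refine ⟨c1, c2, l1, l2, ?_, ?_⟩
  · rw [hb]; nlinarith
  · rw [hb]; nlinarith

end Pool.Agent.Xu.X4.H30
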